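import Pool.Agent.Helper31.CY.St2

set_option autoImplicit false

open Set Topology Filter

namespace Pool.Agent.Helper6.CY

open Pool.Agent.Helper31.CY

/-- a leg going up from a point inside the outermost radius leaves the level -/
private theorem up (hCTF : StCTF) {N : Set (ℝ × ℝ)} {h t : ℝ}
    (hc : ContinuousOn (rho N) (Icc 0 h)) (ht : t ∈ Ioo 0 h)
    (hR : ∀ x ∈ N, x.1 ≠ rho N x.2 → x.2 = t) {y m ε : ℝ} (hy : 0 < y) (hyr : y < rho N t)
    (hε : 0 < ε)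
    (hup : ∀ η : ℝ, 0 < η → (cat y m η, t + η) ∈ box (y, t) ε → (cat y m η, t + η) ∈ N) :
    False := by
  obtain ⟨c0, -, -, cd, -⟩ := hCTF y m hy
  have h1 : Tendsto (fun η => cat y m η) (𝓝[>] 0) (𝓝 y) := by
    have h0 : Tendsto (cat y m) (𝓝 0) (𝓝 (cat y m 0)) := (cd 0).continuousAt
    rw [c0] at h0
    exact h0.mono_left nhdsWithin_le_nhds
  have h2 : Tendsto (fun η => rho N (t + η)) (𝓝[>] 0) (𝓝 (rho N t)) := by
    have h3 : ContinuousAt (rho N) t := hc.continuousAt (Icc_mem_nhds ht.1 ht.2)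
    have h4 : Tendsto (fun η : ℝ => t + η) (𝓝[>] 0) (𝓝 t) := by
      have h5 : Tendsto (fun η : ℝ => t + η) (𝓝 0) (𝓝 (t + 0)) :=
        tendsto_const_nhds.add tendsto_id
      rw [add_zero] at h5
      exact h5.mono_left nhdsWithin_le_nhds
    exact h3.tendsto.comp h4
  have e1 : ∀ᶠ η in 𝓝[>] (0 : ℝ), cat y m η < rho N (t + η) := h1.eventually_lt h2 hyr
  have e2 : ∀ᶠ η in 𝓝[>] (0 : ℝ), cat y m η ∈ Metric.ball y ε :=
    h1.eventually (Metric.ball_mem_nhds y hε)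
  have e3 : ∀ᶠ η in 𝓝[>] (0 : ℝ), η ∈ Ioo 0 ε := Ioo_mem_nhdsGT hε
  obtain ⟨η, ⟨h5, h6⟩, h7⟩ := ((e1.and e2).and e3).exists
  rw [Metric.mem_ball, Real.dist_eq] at h6
  have hmem : (cat y m η, t + η) ∈ N := by
    apply hup η h7.1
    refine ⟨h6, ?_⟩
    show |t + η - t| < ε
    rw [add_sub_cancel_left, abs_of_pos h7.1]
    exact h7.2
  have h8 : t + η = t := hR _ hmem (ne_of_lt h5)
  linarith [h7.1]

/-- **DK**. -/
theorem hDK (hRUN : StRUN) (hCVX : StCVX) (_hRHO : StRHO) (hCTF : StCTF) (hY3 : StY3) : StDK := by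
  intro N r0 r1 h hN hSg t ht hR hex
  have hc : ContinuousOn (rho N) (Icc 0 h) := (hCVX N r0 r1 h hN hSg).1
  apply hRUN N t (rho N t) hN.cpt.isClosed _ hex
  intro y hy hyr hyN
  rcases hy.eq_or_lt with h0 | h0
  · right
    subst h0
    exact ⟨rfl, hN.ax t hyN⟩
  · left
    refine ⟨h0, ?_⟩
    have n0 : ((y, t) : ℝ × ℝ) ≠ (r0, 0) := fun e => ne_of_gt ht.1 (congrArg Prod.snd e)
    have n1 : ((y, t) : ℝ × ℝ) ≠ (r1, h) := fun e => ne_of_lt ht.2 (congrArg Prod.snd e)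
    rcases hN.int (y, t) hyN n0 n1 h0 with hC | hH | hY
    · exfalso
      obtain ⟨m, ε, hε, hbox⟩ := hC
      refine up hCTF hc ht hR h0 hyr hε (m := m) ?_
      intro η _ hb
      rw [hbox _ hb]
      show cat y m η = cat y m (t + η - t)
      rw [add_sub_cancel_left]
    · exact hH
    · exfalso
      obtain ⟨v, hv1, hv2, ε, hε, hbox⟩ := hY
      obtain ⟨⟨i, hi⟩, -⟩ := hY3 v hv1 hv2
      refine up hCTF hc ht hR h0 hyr hε (m := (v i).1 / (v i).2) ?_
      intro η hη hb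
      rw [hbox _ hb]
      refine ⟨i, Or.inl ⟨hi, ?_, ?_⟩⟩
      · show t ≤ t + η
        linarith
      · show cat y ((v i).1 / (v i).2) η = cat y ((v i).1 / (v i).2) (t + η - t)
        rw [add_sub_cancel_left]

end Pool.Agent.Helper6.CY
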